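import Mathlib

/-!
# Polynomials in a hypercyclic operator have dense range
-/

set_option autoImplicit false

open Filter Topology Polynomial

namespace Pool.Agent.Y609.FH

variable {𝕜 : Type} [RCLike 𝕜]

/-- If `q (C) = 0` for a monic polynomial of degree `d` then the first `d` vectors of a dense orbit
span everything. -/
lemma span_eq_top {V : Type} [AddCommGroup V] [Module 𝕜 V] [TopologicalSpace V]
    [IsTopologicalAddGroup V] [ContinuousSMul 𝕜 V] [T2Space V] (C : V →ₗ[𝕜] V) (v : V)
    (q : 𝕜[X]) (hq : q.Monic) (h0 : aeval C q = 0) (hd : 0 < q.natDegree)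
    (hdense : Dense (Set.range fun n : ℕ => (C ^ n) v)) :
    Submodule.span 𝕜 (Set.range fun j : Fin q.natDegree => (C ^ (j : ℕ)) v) = ⊤ := by
  set W := Submodule.span 𝕜 (Set.range fun j : Fin q.natDegree => (C ^ (j : ℕ)) v) with hW
  have hfd : FiniteDimensional 𝕜 W := FiniteDimensional.span_of_finite 𝕜 (Set.finite_range _)
  have hcl : IsClosed (W : Set V) := Submodule.closed_of_finiteDimensional W
  have hmem : ∀ n : ℕ, (C ^ n) v ∈ W := by
    intro n
    have h1 : aeval C (X ^ n : 𝕜[X]) = aeval C ((X ^ n : 𝕜[X]) %ₘ q) := by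
      conv_lhs => rw [← modByMonic_add_div (X ^ n : 𝕜[X]) q]
      rw [map_add, map_mul, h0, zero_mul, add_zero]
    rw [map_pow, aeval_X] at h1
    have h2 : ((X ^ n : 𝕜[X]) %ₘ q).natDegree < q.natDegree :=
      natDegree_modByMonic_lt _ hq (by rintro rfl; simp at hd)
    rw [h1, aeval_eq_sum_range' h2, LinearMap.sum_apply]
    refine Submodule.sum_mem _ fun j hj => ?_
    rw [LinearMap.smul_apply]
    exact Submodule.smul_mem _ _ (Submodule.subset_span ⟨⟨j, Finset.mem_range.1 hj⟩, rfl⟩)
  rw [Submodule.eq_top_iff']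
  intro w
  exact hcl.closure_subset_iff.2 (by rintro _ ⟨n, rfl⟩; exact hmem n) (hdense w)

/-- There is no dense orbit on a nonzero finite dimensional space. -/
lemma finite_not_dense {V : Type} [AddCommGroup V] [Module 𝕜 V] [TopologicalSpace V]
    [IsTopologicalAddGroup V] [ContinuousSMul 𝕜 V] [T2Space V] [FiniteDimensional 𝕜 V]
    [Nontrivial V] (C : V →ₗ[𝕜] V) (v : V) :
    ¬ Dense (Set.range fun n : ℕ => (C ^ n) v) := by
  intro hdense
  set d := Module.finrank 𝕜 V with hd
  have hd0 : 0 < d := Module.finrank_pos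
  set b := Module.finBasis 𝕜 V with hb
  set F : V → 𝕜 := fun w => b.det (fun j : Fin d => (C ^ (j : ℕ)) w) with hF
  have hFcont : Continuous F := by
    simp only [hF, Module.Basis.det_apply]
    apply Continuous.matrix_det
    refine continuous_matrix fun i j => ?_
    simp only [Module.Basis.toMatrix_apply]
    exact (LinearMap.continuous_of_finiteDimensional ((b.coord i).comp (C ^ (j : ℕ))))
  have hFC : ∀ n w, F ((C ^ n) w) = (LinearMap.det C) ^ n * F w := by
    intro n w
    have h1 := b.det_comp (C ^ n) (fun j : Fin d => (C ^ (j : ℕ)) w)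
    rw [map_pow] at h1
    rw [← h1]
    simp only [hF]
    congr 1
    funext j
    show (C ^ (j : ℕ)) ((C ^ n) w) = (C ^ n) ((C ^ (j : ℕ)) w)
    rw [← Module.End.mul_apply, ← Module.End.mul_apply, ← pow_add, ← pow_add, add_comm]
  have hFt : ∀ (t : 𝕜) w, F (t • w) = t ^ d * F w := by
    intro t w
    simp only [hF, map_smul]
    rw [b.det.map_smul_univ]
    simp only [Finset.prod_const, Finset.card_univ, Fintype.card_fin, smul_eq_mul]
    rfl
  have hFv : F v ≠ 0 := by
    have hdeg : (LinearMap.charpoly C).natDegree = d := LinearMap.charpoly_natDegree C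
    have h1 := span_eq_top C v (LinearMap.charpoly C) (LinearMap.charpoly_monic C)
      (LinearMap.aeval_self_charpoly C) (by rw [hdeg]; exact hd0) hdense
    rw [hdeg] at h1
    have h2 : LinearIndependent 𝕜 (fun j : Fin d => (C ^ (j : ℕ)) v) :=
      linearIndependent_of_top_le_span_of_card_eq_finrank h1.ge (by simp [hd])
    exact ((Module.Basis.is_basis_iff_det b).1 ⟨h2, h1⟩).ne_zero
  have hr : 0 < ‖F v‖ := norm_pos_iff.2 hFv
  rcases le_total ‖LinearMap.det C‖ 1 with hD | hD
  · have hcl : IsClosed {w : V | ‖F w‖ ≤ ‖F v‖} := isClosed_le hFcont.norm continuous_const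
    have h0 : (Set.range fun n : ℕ => (C ^ n) v) ⊆ {w : V | ‖F w‖ ≤ ‖F v‖} := by
      rintro _ ⟨n, rfl⟩
      show ‖F ((C ^ n) v)‖ ≤ ‖F v‖
      rw [hFC, norm_mul, norm_pow]
      exact mul_le_of_le_one_left hr.le (pow_le_one₀ (norm_nonneg _) hD)
    have h1 := closure_minimal h0 hcl
    have h2 : ‖F ((2 : 𝕜) • v)‖ ≤ ‖F v‖ := h1 (hdense _)
    rw [hFt, norm_mul, norm_pow, RCLike.norm_two] at h2
    have h3 : (2 : ℝ) ≤ 2 ^ d := le_self_pow₀ (by norm_num) hd0.ne'
    nlinarith
  · have hcl : IsClosed {w : V | ‖F v‖ ≤ ‖F w‖} := isClosed_le continuous_const hFcont.norm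
    have h0 : (Set.range fun n : ℕ => (C ^ n) v) ⊆ {w : V | ‖F v‖ ≤ ‖F w‖} := by
      rintro _ ⟨n, rfl⟩
      show ‖F v‖ ≤ ‖F ((C ^ n) v)‖
      rw [hFC, norm_mul, norm_pow]
      exact le_mul_of_one_le_left hr.le (one_le_pow₀ hD)
    have h1 := closure_minimal h0 hcl
    have h2 : ‖F v‖ ≤ ‖F ((0 : 𝕜) • v)‖ := h1 (hdense _)
    rw [hFt, zero_pow hd0.ne', zero_mul, norm_zero] at h2
    linarith

/-- Nonzero polynomials in an operator with a dense orbit have dense range. -/
theorem denseRange_aeval {V : Type} [AddCommGroup V] [Module 𝕜 V] [TopologicalSpace V]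
    [IsTopologicalAddGroup V] [ContinuousSMul 𝕜 V] (T : V →L[𝕜] V) (v : V)
    (hdense : Dense (Set.range fun n : ℕ => (T ^ n) v)) (p : 𝕜[X]) (hp : p ≠ 0) :
    DenseRange (aeval T p : V →L[𝕜] V) := by
  -- monic
  wlog hmon : p.Monic generalizing p with hwlog
  · have h1 := hwlog (p * Polynomial.C (p.leadingCoeff)⁻¹)
      (mul_ne_zero hp (by simpa using hp)) (monic_mul_leadingCoeff_inv hp)
    refine h1.mono ?_
    rintro _ ⟨w, rfl⟩
    rw [map_mul]
    exact ⟨_, rfl⟩
  by_contra hnd
  set M : Submodule 𝕜 V := (LinearMap.range ((aeval T p : V →L[𝕜] V) : V →ₗ[𝕜] V)).topologicalClosure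
    with hM
  have hcl : IsClosed (M : Set V) := Submodule.isClosed_topologicalClosure _
  have hcoe : (M : Set V) = closure (Set.range (aeval T p : V →L[𝕜] V)) := by
    rw [hM, Submodule.topologicalClosure_coe]
    rfl
  have hne : M ≠ ⊤ := by
    intro h
    apply hnd
    rw [DenseRange, dense_iff_closure_eq, ← hcoe, h]
    rfl
  have hinv : M ≤ M.comap (T : V →ₗ[𝕜] V) := by
    intro w hw
    have hw' : w ∈ closure (Set.range (aeval T p : V →L[𝕜] V)) := by
      rw [← hcoe]; exact hw
    show T w ∈ M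
    have h1 : T w ∈ closure (Set.range (aeval T p : V →L[𝕜] V)) := by
      refine map_mem_closure T.continuous hw' ?_
      rintro _ ⟨x, rfl⟩
      refine ⟨T x, ?_⟩
      have h2 : aeval T p * T = T * aeval T p := by
        have := (Commute.all (X : 𝕜[X]) p).map (aeval T)
        rw [aeval_X] at this
        exact this.symm
      have h3 := congrArg (fun A : V →L[𝕜] V => A x) h2
      exact h3
    rw [← hcoe] at h1
    exact h1
  set T' : (V ⧸ M) →ₗ[𝕜] (V ⧸ M) := M.mapQ M (T : V →ₗ[𝕜] V) hinv with hT'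
  have hpow : ∀ (n : ℕ) (w : V), (T' ^ n) (M.mkQ w) = M.mkQ ((T ^ n) w) := by
    intro n
    induction n with
    | zero => intro w; rfl
    | succ n ih =>
      intro w
      rw [pow_succ', pow_succ', Module.End.mul_apply, ih]
      rfl
  have haev : aeval T' p = 0 := by
    refine LinearMap.ext fun w => ?_
    obtain ⟨w, rfl⟩ := M.mkQ_surjective w
    have h1 : aeval T' p (M.mkQ w) = M.mkQ ((aeval T p : V →L[𝕜] V) w) := by
      rw [aeval_eq_sum_range, aeval_eq_sum_range, LinearMap.sum_apply,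
        ContinuousLinearMap.sum_apply, map_sum]
      refine Finset.sum_congr rfl fun j _ => ?_
      rw [LinearMap.smul_apply, ContinuousLinearMap.smul_apply, map_smul, hpow]
    rw [h1]
    have h2 : (aeval T p : V →L[𝕜] V) w ∈ M := by
      rw [← SetLike.mem_coe, hcoe]
      exact subset_closure ⟨w, rfl⟩
    show M.mkQ _ = 0
    rw [Submodule.mkQ_apply, Submodule.Quotient.mk_eq_zero]
    exact h2
  have hclosed : IsClosed (M : Set V) := hcl
  have ht3 : T3Space (V ⧸ M) := Submodule.t3_quotient_of_isClosed M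
  have hdense' : Dense (Set.range fun n : ℕ => (T' ^ n) (M.mkQ v)) := by
    have h1 := (M.mkQ_surjective.denseRange).dense_image continuous_quot_mk hdense
    refine h1.mono ?_
    rintro _ ⟨_, ⟨n, rfl⟩, rfl⟩
    exact ⟨n, hpow n v⟩
  have hntr : Nontrivial (V ⧸ M) := Submodule.Quotient.nontrivial_iff.2 hne
  have hdeg : 0 < p.natDegree := by
    rw [Nat.pos_iff_ne_zero]
    intro h0
    have h1 : p = 1 := hmon.natDegree_eq_zero.1 h0
    rw [h1, map_one] at haev
    exact one_ne_zero haev
  have htop := span_eq_top T' (M.mkQ v) p hmon haev hdeg hdense'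
  have hfd : FiniteDimensional 𝕜 (V ⧸ M) := by
    have h1 : (⊤ : Submodule 𝕜 (V ⧸ M)).FG := by
      rw [← htop]
      exact Submodule.fg_span (Set.finite_range _)
    exact Module.finite_def.2 h1
  exact finite_not_dense T' (M.mkQ v) hdense'

end Pool.Agent.Y609.FH
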