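import Pool.Agent.Helper932.FHCMain
import Pool.Agent.Y609.FH.Dens

/-!
# Operators whose frequently hypercyclic vectors are the polynomials of one vector: consequences
-/

set_option autoImplicit false

open Filter Topology Polynomial

namespace Pool.Agent.Y609.FH

open Pool.Agent.Helper932.FHC

variable {𝕜 : Type} [RCLike 𝕜]

lemma posLD_univ : PosLD Set.univ := by
  refine ⟨1, zero_lt_one, Eventually.of_forall fun N => ?_⟩
  rw [Set.univ_inter, Set.ncard_eq_toFinset_card', Set.toFinset_Iic, Nat.card_Iic]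
  push_cast
  linarith

lemma frequently_of_posLD {A : Set ℕ} (h : PosLD A) : A.Nonempty := by
  obtain ⟨δ, hδ, hev⟩ := h
  obtain ⟨N, hN1, hN2⟩ := (hev.and (eventually_ge_atTop 1)).exists
  have hpos : 0 < ((A ∩ Set.Iic N).ncard : ℝ) := by
    have : 0 < δ * (N : ℝ) := mul_pos hδ (by exact_mod_cast hN2)
    linarith
  have hpos' : 0 < (A ∩ Set.Iic N).ncard := by exact_mod_cast hpos
  obtain ⟨n, hn, -⟩ := Set.nonempty_of_ncard_ne_zero hpos'.ne'
  exact ⟨n, hn⟩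

section tvs

variable {X : Type} [AddCommGroup X] [Module 𝕜 X] [TopologicalSpace X]
  [IsTopologicalAddGroup X] [ContinuousSMul 𝕜 X] {T : X →L[𝕜] X} {x₀ : X} {U₀ : Set X}

lemma aeval_pow (p : 𝕜[X]) (n : ℕ) (x : X) :
    (T ^ n) ((aeval T p : X →L[𝕜] X) x) = (aeval T p : X →L[𝕜] X) ((T ^ n) x) := by
  have h2 : aeval T p * T ^ n = T ^ n * aeval T p := by
    have := (Commute.all (Polynomial.X ^ n : 𝕜[X]) p).map (aeval T)
    rw [map_pow, aeval_X] at this
    exact this.symm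
  exact (congrArg (fun A : X →L[𝕜] X => A x) h2).symm

lemma aeval_comm (p q : 𝕜[X]) (x : X) :
    (aeval T q : X →L[𝕜] X) ((aeval T p : X →L[𝕜] X) x) =
      (aeval T p : X →L[𝕜] X) ((aeval T q : X →L[𝕜] X) x) := by
  have h2 : aeval T q * aeval T p = aeval T p * aeval T q :=
    (Commute.all q p).map (aeval T)
  exact congrArg (fun A : X →L[𝕜] X => A x) h2

lemma dense_of_fhc (hx : IsFHCVector T x₀) : Dense (Set.range fun n : ℕ => (T ^ n) x₀) := by
  rw [dense_iff_inter_open]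
  intro U hU hne
  obtain ⟨n, hn⟩ := frequently_of_posLD ((lowerDensity_pos_iff _).1 (hx U hU hne))
  exact ⟨_, hn, n, rfl⟩

/-- If `A` commutes with `T` and has dense range then it maps frequently hypercyclic vectors to
such vectors. -/
lemma fhc_map {A : X →L[𝕜] X} (hA : DenseRange A) (hc : ∀ n x, (T ^ n) (A x) = A ((T ^ n) x))
    (hx : IsFHCVector T x₀) : IsFHCVector T (A x₀) := by
  intro U hU hne
  have h1 := hx (A ⁻¹' U) (hU.preimage A.continuous) (by
    obtain ⟨a, ha⟩ := hA.exists_mem_open hU hne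
    exact ⟨a, ha⟩)
  have h2 : {n : ℕ | (T ^ n) (A x₀) ∈ U} = {n : ℕ | (T ^ n) x₀ ∈ A ⁻¹' U} := by
    ext n
    show (T ^ n) (A x₀) ∈ U ↔ A ((T ^ n) x₀) ∈ U
    rw [hc]
  rw [h2]
  exact h1

variable [T2Space X] [Nontrivial X]

/-- The hypotheses: `x₀` is frequently hypercyclic, and only the vectors `p (T) x₀` visit `U₀` with
positive lower density. -/
structure Min (T : X →L[𝕜] X) (x₀ : X) (U₀ : Set X) : Prop where
  op : IsOpen U₀
  zero : (0 : X) ∈ U₀
  cl : closure U₀ ≠ Set.univ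
  fhc : IsFHCVector T x₀
  vis : ∀ x, 0 < lowerDensity {n : ℕ | (T ^ n) x ∈ U₀} → ∃ p : 𝕜[X], x = (aeval T p : X →L[𝕜] X) x₀

omit [T2Space X] [Nontrivial X] in
lemma Min.vis_of (h : Min T x₀ U₀) (A : X →L[𝕜] X)
    (hc : ∀ n x, (T ^ n) (A x) = A ((T ^ n) x)) :
    0 < lowerDensity {n : ℕ | (T ^ n) (A x₀) ∈ U₀} := by
  have h1 := h.fhc (A ⁻¹' U₀) (h.op.preimage A.continuous) ⟨0, by
    show A 0 ∈ U₀
    rw [map_zero]; exact h.zero⟩
  have h2 : {n : ℕ | (T ^ n) (A x₀) ∈ U₀} = {n : ℕ | (T ^ n) x₀ ∈ A ⁻¹' U₀} := by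
    ext n
    show (T ^ n) (A x₀) ∈ U₀ ↔ A ((T ^ n) x₀) ∈ U₀
    rw [hc]
  rw [h2]
  exact h1

omit [T2Space X] [Nontrivial X] in
theorem Min.vis_iff (h : Min T x₀ U₀) (x : X) :
    0 < lowerDensity {n : ℕ | (T ^ n) x ∈ U₀} ↔ ∃ p : 𝕜[X], x = (aeval T p : X →L[𝕜] X) x₀ := by
  refine ⟨h.vis x, ?_⟩
  rintro ⟨p, rfl⟩
  exact h.vis_of _ (aeval_pow p)

theorem Min.fhc_iff (h : Min T x₀ U₀) (x : X) :
    IsFHCVector T x ↔ ∃ p : 𝕜[X], p ≠ 0 ∧ x = (aeval T p : X →L[𝕜] X) x₀ := by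
  constructor
  · intro hx
    obtain ⟨p, hp⟩ := h.vis x (hx U₀ h.op ⟨0, h.zero⟩)
    refine ⟨p, ?_, hp⟩
    rintro rfl
    rw [map_zero] at hp
    have h0 : x = 0 := hp
    have h1 := dense_of_fhc hx
    obtain ⟨y, hy⟩ := exists_ne (0 : X)
    apply hy
    have h2 : (Set.range fun n : ℕ => (T ^ n) x) ⊆ {0} := by
      rintro _ ⟨n, rfl⟩
      simp [h0]
    have h3 := closure_minimal h2 isClosed_singleton (h1 y)
    exact h3
  · rintro ⟨p, hp, rfl⟩
    exact fhc_map (denseRange_aeval T x₀ (dense_of_fhc h.fhc) p hp) (aeval_pow p) h.fhc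

omit [Nontrivial X] in
/-- The commutant consists of the polynomials. -/
theorem Min.comm_iff (h : Min T x₀ U₀) (R : X →L[𝕜] X) :
    R * T = T * R ↔ ∃ p : 𝕜[X], R = aeval T p := by
  constructor
  · intro hR
    have hc : ∀ n x, (T ^ n) (R x) = R ((T ^ n) x) := by
      intro n x
      have h1 : Commute R (T ^ n) := (show Commute R T from hR).pow_right n
      exact (congrArg (fun A : X →L[𝕜] X => A x) h1.eq).symm
    obtain ⟨p, hp⟩ := h.vis _ (h.vis_of R hc)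
    refine ⟨p, ?_⟩
    have hcl : IsClosed {x : X | R x = (aeval T p : X →L[𝕜] X) x} :=
      isClosed_eq R.continuous (aeval T p : X →L[𝕜] X).continuous
    have hsub : (Set.range fun n : ℕ => (T ^ n) x₀) ⊆
        {x : X | R x = (aeval T p : X →L[𝕜] X) x} := by
      rintro _ ⟨n, rfl⟩
      show R ((T ^ n) x₀) = (aeval T p : X →L[𝕜] X) ((T ^ n) x₀)
      rw [← hc, hp, aeval_pow]
    refine ContinuousLinearMap.ext fun x => ?_
    exact closure_minimal hsub hcl (dense_of_fhc h.fhc x)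
  · rintro ⟨p, rfl⟩
    have := (Commute.all p (Polynomial.X : 𝕜[X])).map (aeval T)
    rw [aeval_X] at this
    exact this

/-- An orbit which stays in `U₀` is zero. -/
theorem Min.zero_of_mem (h : Min T x₀ U₀) (x : X) (hx : ∀ n, (T ^ n) x ∈ U₀) : x = 0 := by
  have h1 : {n : ℕ | (T ^ n) x ∈ U₀} = Set.univ := Set.eq_univ_of_forall hx
  obtain ⟨p, hp⟩ := h.vis x (by rw [h1]; exact (lowerDensity_pos_iff _).2 posLD_univ)
  by_cases hp0 : p = 0
  · rw [hp, hp0, map_zero]; rfl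
  · exfalso
    apply h.cl
    have h2 := dense_of_fhc ((h.fhc_iff x).2 ⟨p, hp0, hp⟩)
    have h3 : Dense U₀ := h2.mono (by rintro _ ⟨n, rfl⟩; exact hx n)
    exact h3.closure_eq

theorem Min.bounded (h : Min T x₀ U₀) (x : X)
    (hx : Bornology.IsVonNBounded 𝕜 (Set.range fun n : ℕ => (T ^ n) x)) : x = 0 := by
  have h1 := hx (h.op.mem_nhds h.zero)
  obtain ⟨r, hr⟩ := h1.exists_pos
  obtain ⟨hr0, hr1⟩ := hr
  set a : 𝕜 := (r : 𝕜) with ha
  have han : r ≤ ‖a‖ := by rw [ha, RCLike.norm_ofReal]; exact le_abs_self r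
  have ha0 : a ≠ 0 := by
    intro h0
    rw [h0, norm_zero] at han
    linarith
  have h2 := hr1 a han
  have h3 : a⁻¹ • x = 0 := by
    apply h.zero_of_mem
    intro n
    obtain ⟨u, hu, hux⟩ := h2 ⟨n, rfl⟩
    have hux' : a • u = (T ^ n) x := hux
    rw [map_smul, ← hux', inv_smul_smul₀ ha0]
    exact hu
  rcases smul_eq_zero.1 h3 with h4 | h4
  · exact absurd h4 (inv_ne_zero ha0)
  · exact h4

/-- Disjointness from all operators with a nonzero intertwining operator. -/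
theorem Min.disjoint (h : Min T x₀ U₀) {Y : Type} [AddCommGroup Y] [Module 𝕜 Y]
    [TopologicalSpace Y] (R : Y →L[𝕜] Y) (hTR : IsFHC (T.prodMap R)) (J : Y →L[𝕜] X)
    (hJ : ∀ y, J (R y) = T (J y)) : J = 0 := by
  obtain ⟨⟨x, y⟩, hxy⟩ := hTR
  have hpow : ∀ n : ℕ, ((T.prodMap R) ^ n) (x, y) = ((T ^ n) x, (R ^ n) y) := by
    intro n
    induction n with
    | zero => rfl
    | succ n ih => simp only [pow_succ', mul_apply_eq_comp, ih]; rfl
  have hJn : ∀ (n : ℕ) (w : Y), J ((R ^ n) w) = (T ^ n) (J w) := by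
    intro n
    induction n with
    | zero => intro w; rfl
    | succ n ih =>
      intro w
      rw [pow_succ', pow_succ', mul_apply_eq_comp, mul_apply_eq_comp, hJ, ih]
  obtain ⟨p, hp⟩ := h.vis x (by
    have h1 := hxy (U₀ ×ˢ Set.univ) (h.op.prod isOpen_univ) ⟨(0, 0), h.zero, trivial⟩
    have h2 : {n : ℕ | ((T.prodMap R) ^ n) (x, y) ∈ U₀ ×ˢ (Set.univ : Set Y)} =
        {n : ℕ | (T ^ n) x ∈ U₀} := by
      ext n
      show ((T.prodMap R) ^ n) (x, y) ∈ U₀ ×ˢ (Set.univ : Set Y) ↔ (T ^ n) x ∈ U₀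
      rw [hpow]
      simp
    rwa [h2] at h1)
  obtain ⟨q, hq⟩ := h.vis (J y) (by
    have h1 := hxy (Set.univ ×ˢ (J ⁻¹' U₀)) (isOpen_univ.prod (h.op.preimage J.continuous))
      ⟨(0, 0), trivial, by show J 0 ∈ U₀; rw [map_zero]; exact h.zero⟩
    have h2 : {n : ℕ | ((T.prodMap R) ^ n) (x, y) ∈ (Set.univ : Set X) ×ˢ (J ⁻¹' U₀)} =
        {n : ℕ | (T ^ n) (J y) ∈ U₀} := by
      ext n
      show ((T.prodMap R) ^ n) (x, y) ∈ (Set.univ : Set X) ×ˢ (J ⁻¹' U₀) ↔ (T ^ n) (J y) ∈ U₀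
      rw [hpow, ← hJn]
      simp
    rwa [h2] at h1)
  have hd : Dense (Set.range fun n : ℕ => ((T.prodMap R) ^ n) (x, y)) := by
    rw [dense_iff_inter_open]
    intro U hU hne
    obtain ⟨n, hn⟩ := frequently_of_posLD ((lowerDensity_pos_iff _).1 (hxy U hU hne))
    exact ⟨_, hn, n, rfl⟩
  have hcl : IsClosed {w : X × Y | (aeval T q : X →L[𝕜] X) w.1 =
      (aeval T p : X →L[𝕜] X) (J w.2)} :=
    isClosed_eq ((aeval T q : X →L[𝕜] X).continuous.comp continuous_fst)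
      ((aeval T p : X →L[𝕜] X).continuous.comp (J.continuous.comp continuous_snd))
  have hsub : (Set.range fun n : ℕ => ((T.prodMap R) ^ n) (x, y)) ⊆ {w : X × Y |
      (aeval T q : X →L[𝕜] X) w.1 = (aeval T p : X →L[𝕜] X) (J w.2)} := by
    rintro _ ⟨n, rfl⟩
    show (aeval T q : X →L[𝕜] X) (((T.prodMap R) ^ n) (x, y)).1 =
      (aeval T p : X →L[𝕜] X) (J (((T.prodMap R) ^ n) (x, y)).2)
    rw [hpow]
    simp only
    rw [hJn, hp, hq, ← aeval_pow, ← aeval_pow, aeval_comm]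
  have hall := fun w => closure_minimal hsub hcl (hd w)
  -- `q = 0`
  have hq0 : q = 0 := by
    by_contra hq0
    have h1 := denseRange_aeval T x₀ (dense_of_fhc h.fhc) q hq0
    obtain ⟨z, hz⟩ := exists_ne (0 : X)
    apply hz
    have h2 : Set.range (aeval T q : X →L[𝕜] X) ⊆ {0} := by
      rintro _ ⟨u, rfl⟩
      have h3 : (aeval T q : X →L[𝕜] X) u = (aeval T p : X →L[𝕜] X) (J 0) := hall (u, 0)
      rw [map_zero, map_zero] at h3
      exact h3
    exact closure_minimal h2 isClosed_singleton (h1 z)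
  have hJy : J y = 0 := by rw [hq, hq0, map_zero]; rfl
  have hcl2 : IsClosed {w : X × Y | J w.2 = 0} :=
    isClosed_eq (J.continuous.comp continuous_snd) continuous_const
  have hsub2 : (Set.range fun n : ℕ => ((T.prodMap R) ^ n) (x, y)) ⊆
      {w : X × Y | J w.2 = 0} := by
    rintro _ ⟨n, rfl⟩
    show J (((T.prodMap R) ^ n) (x, y)).2 = 0
    rw [hpow]
    simp only
    rw [hJn, hJy, map_zero]
  refine ContinuousLinearMap.ext fun w => ?_
  exact closure_minimal hsub2 hcl2 (hd (0, w))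

theorem Min.not_prod (h : Min T x₀ U₀) : ¬ IsFHC (T.prodMap T) := by
  intro hT
  have h1 := h.disjoint T hT (ContinuousLinearMap.id 𝕜 X) (fun _ => rfl)
  obtain ⟨z, hz⟩ := exists_ne (0 : X)
  apply hz
  have := congrArg (fun A : X →L[𝕜] X => A z) h1
  exact this

end tvs

end Pool.Agent.Y609.FH
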