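import Pool.Agent.Y609.FH.Abs

/-!
# The space and the operator
-/

set_option autoImplicit false

open Filter Topology Polynomial

namespace Pool.Agent.Y609.FH

open Pool.Agent.Helper932.FHC

variable {𝕜 : Type} [RCLike 𝕜]

lemma aeval_mem_span {V : Type} [AddCommGroup V] [Module 𝕜 V] [TopologicalSpace V]
    [IsTopologicalAddGroup V] [ContinuousSMul 𝕜 V] (T : V →L[𝕜] V) (v : V) (p : 𝕜[X]) :
    (aeval T p : V →L[𝕜] V) v ∈
      Submodule.span 𝕜 (Set.range fun j : Fin (p.natDegree + 1) => (T ^ (j : ℕ)) v) := by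
  rw [aeval_eq_sum_range, sum_apply]
  refine Submodule.sum_mem _ fun j hj => ?_
  exact Submodule.smul_mem _ _ (Submodule.subset_span ⟨⟨j, Finset.mem_range.1 hj⟩, rfl⟩)

/-- There is no closed infinite dimensional subspace consisting of frequently hypercyclic vectors
and zero. -/
theorem no_subspace {V : Type} [AddCommGroup V] [Module 𝕜 V] [UniformSpace V]
    [IsUniformAddGroup V] [ContinuousSMul 𝕜 V] [CompleteSpace V]
    [TopologicalSpace.MetrizableSpace V] [Nontrivial V]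
    {T : V →L[𝕜] V} {x₀ : V} {U₀ : Set V} (h : Min T x₀ U₀) (M : Submodule 𝕜 V)
    (hM : IsClosed (M : Set V)) (hfd : ¬ FiniteDimensional 𝕜 M) :
    ∃ x ∈ M, x ≠ 0 ∧ ¬ IsFHCVector T x := by
  by_contra hc
  push Not at hc
  have hcg : (uniformity V).IsCountablyGenerated :=
    IsUniformAddGroup.uniformity_countably_generated
  have hcs : CompleteSpace M := hM.completeSpace_coe
  have hcgM : (uniformity M).IsCountablyGenerated := by
    rw [uniformity_subtype]
    infer_instance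
  have hbaire : BaireSpace M := inferInstance
  set W : ℕ → Submodule 𝕜 V := fun d =>
    Submodule.span 𝕜 (Set.range fun j : Fin (d + 1) => (T ^ (j : ℕ)) x₀) with hW
  have hWfd : ∀ d, FiniteDimensional 𝕜 (W d) := fun d =>
    FiniteDimensional.span_of_finite 𝕜 (Set.finite_range _)
  have hcl : ∀ d, IsClosed (((W d).comap M.subtype : Submodule 𝕜 M) : Set M) := by
    intro d
    have : IsClosed (W d : Set V) := Submodule.closed_of_finiteDimensional (W d)
    exact this.preimage continuous_subtype_val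
  have hU : (⋃ d, (((W d).comap M.subtype : Submodule 𝕜 M) : Set M)) = Set.univ := by
    refine Set.eq_univ_of_forall fun x => ?_
    rw [Set.mem_iUnion]
    by_cases hx : (x : V) = 0
    · refine ⟨0, ?_⟩
      show (x : V) ∈ W 0
      rw [hx]
      exact zero_mem _
    · obtain ⟨p, -, hp⟩ := (h.fhc_iff _).1 (hc x x.2 hx)
      refine ⟨p.natDegree, ?_⟩
      show (x : V) ∈ W p.natDegree
      rw [hp]
      exact aeval_mem_span T x₀ p
  obtain ⟨d, hd⟩ := nonempty_interior_of_iUnion_of_closed hcl hU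
  have htop := Submodule.eq_top_of_nonempty_interior' _ hd
  apply hfd
  have hle : M ≤ W d := by
    intro x hx
    have : (⟨x, hx⟩ : M) ∈ (W d).comap M.subtype := by rw [htop]; trivial
    exact this
  have := hWfd d
  exact Submodule.finiteDimensional_of_le hle

section inst

variable {A : ℕ → Set ℕ} {P : ℕ → E 𝕜} {ρ : ℕ → (E 𝕜 →L[𝕜] E 𝕜)}

/-- The neighbourhood of zero. -/
def U0 (ρ : ℕ → (E 𝕜 →L[𝕜] E 𝕜)) : Set (Pool.Agent.Helper932.FHC.X ρ) := {z | ‖z.1 0‖ < 1}

lemma polT_eq (h : Sys A P ρ) (a : E 𝕜) (F : Finset ℕ) :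
    polT h a F = aeval (Pool.Agent.Helper932.FHC.T h)
      (∑ j ∈ F, monomial j (a j * ((4 : 𝕜) ^ j)⁻¹)) := by
  rw [map_sum, polT]
  refine Finset.sum_congr rfl fun j _ => ?_
  rw [aeval_monomial]
  refine ContinuousLinearMap.ext fun x => ?_
  rw [ContinuousLinearMap.mul_apply, Algebra.algebraMap_eq_smul_one]
  rfl

theorem exists_min (hA : IsSlots A) (hLD : ∀ i, PosLD (A i)) (hM : Mixing A)
    (hP : ∀ (u : E 𝕜) (ε : ℝ) (k : ℕ), 0 < ε → ∃ i, k ≤ i ∧ ‖P i - u‖ < ε) (h : Sys A P ρ) :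
    Min (Pool.Agent.Helper932.FHC.T h) (iota h (e 𝕜 0)) (U0 ρ) := by
  have hcont : Continuous fun z : Pool.Agent.Helper932.FHC.X ρ => ‖z.1 0‖ :=
    ((continuous_apply 0).comp continuous_subtype_val).norm
  have hfhc := fhc_e0 hLD hP h
  have hne : ¬ FiniteDimensional 𝕜 (Pool.Agent.Helper932.FHC.X ρ) := X_not_finiteDimensional hA h
  refine ⟨isOpen_lt hcont continuous_const, ?_, ?_, hfhc, ?_⟩
  · show ‖(0 : E 𝕜)‖ < 1
    rw [norm_zero]
    exact zero_lt_one
  · intro hcl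
    have h1 : closure (U0 ρ) ⊆ {z : Pool.Agent.Helper932.FHC.X ρ | ‖z.1 0‖ ≤ 1} :=
      closure_minimal (fun z (hz : ‖z.1 0‖ < 1) => show ‖z.1 0‖ ≤ 1 from hz.le)
        (isClosed_le hcont continuous_const)
    have h2 : ‖(iota h ((2 : 𝕜) • e 𝕜 0)).1 0‖ ≤ 1 := h1 (by rw [hcl]; trivial)
    have h3 : ¬ Act A 0 0 := by
      rintro ⟨i, n, m, hn, hjn, hm⟩
      have := hA.large i n hn
      omega
    rw [iota_apply, map_smul, h.free 0 0 h3, norm_smul, norm_e, RCLike.norm_two] at h2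
    norm_num at h2
  · intro x hx
    obtain ⟨b, hb, rfl⟩ := visit_zero hA hM h x ((lowerDensity_pos_iff _).1 hx)
    refine ⟨∑ j ∈ hb.toFinset, monomial j (b j * ((4 : 𝕜) ^ j)⁻¹), ?_⟩
    rw [← polT_eq, polT_iota]

/-- The topology is given by countably many seminorms. -/
theorem exists_seminorms (ρ : ℕ → (E 𝕜 →L[𝕜] E 𝕜)) :
    ∃ (ι : Type) (_ : Countable ι) (q : SeminormFamily 𝕜 (Pool.Agent.Helper932.FHC.X ρ) ι),
      WithSeminorms q := by
  have h1 : WithSeminorms (fun _ : Fin 1 => normSeminorm 𝕜 (E 𝕜)) := norm_withSeminorms 𝕜 (E 𝕜)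
  have h2 := withSeminorms_pi (𝕜 := 𝕜) (E := fun _ : ℕ => E 𝕜) (fun _ : ℕ => h1)
  have h3 := LinearMap.withSeminorms_induced h2 (Pool.Agent.Helper932.FHC.X ρ).subtype
  exact ⟨_, inferInstance, _, h3⟩

end inst

end Pool.Agent.Y609.FH
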